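import Mathlib
import Pool.Agent.Helper7.HomogAlg

open Pool.Agent.Helper7.Homog

universe u

/-- Over every field `K`, for all `n, r ≥ 1`, the free `n`-nilpotent associative `K`-algebra of
rank `r` is logically homogeneous, and so is the free `n`-solvable associative `K`-algebra of
rank `r`. -/
theorem Pool.Agent.Results.MP_3d7de8_lc.Homogeneous.result
    (K : Type u) [Field K] (n r : ℕ) (hn : 1 ≤ n) (_hr : 1 ≤ r) (A : Type u) [NonUnitalRing A]
    [Module K A] [IsScalarTower K A A] [SMulCommClass K A A] :
    (IsFreeNilpotent K n r A → LogicallyHomogeneous K A) ∧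
    (IsFreeSolvable K n r A → LogicallyHomogeneous K A) :=
  ⟨fun h => h.homog hn, fun h => h.homog⟩
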